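import Pool.Agent.Helper3_LE.MupB
import Pool.Agent.Helper77_LE.ErmB

/-!
# LLN: the law of large numbers for `-log h(0, n x)`
-/

set_option autoImplicit false
set_option linter.unusedSectionVars false

open MeasureTheory ProbabilityTheory Function Filter

open scoped ENNReal BigOperators

noncomputable section

namespace Pool.Agent.LE.H30

open Pool.Agent.Anderson Pool.Agent.Loc Pool.Agent.Mob Pool.Agent.Helper54.Bal Pool.Agent.LE
open Pool.Agent.LE.H3B

variable {d : ℕ}

theorem sm_add_left (m n : ℕ) (x : Site d) : sm (m + n) x = sm m x + sm n x := by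
  funext j
  simp [sm, add_mul]

theorem nsmul_sm (i m : ℕ) (x : Site d) : i • sm m x = sm (i * m) x := by
  funext j
  simp [sm, mul_assoc]

theorem sm_ne_zero {m : ℕ} (hm : 0 < m) {x : Site d} (hx : x ≠ 0) : sm m x ≠ 0 := by
  intro h
  apply hx
  funext j
  have h1 := congrFun h j
  simp only [sm, Pi.zero_apply, mul_eq_zero, Nat.cast_eq_zero] at h1
  rcases h1 with h1 | h1
  · omega
  · exact h1

variable {P : Measure (Cfg d)} [IsProbabilityMeasure P] {C : ℝ}
  {h : Cfg d → Site d → Site d → ℝ}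

/-- the remainder -/
def rr (h : Cfg d → Site d → Site d → ℝ) (V : Cfg d) (x u y : Site d) : ℝ :=
  max 0 (Real.log (h V x u) + Real.log (h V u y) - Real.log (h V x y))

theorem rr_nonneg (V : Cfg d) (x u y : Site d) : 0 ≤ rr h V x u y := le_max_left _ _

theorem rr_ge (V : Cfg d) (x u y : Site d) :
    -Real.log (h V x y) ≤ -Real.log (h V x u) + -Real.log (h V u y) + rr h V x u y := by
  have := le_max_right 0 (Real.log (h V x u) + Real.log (h V u y) - Real.log (h V x y))
  unfold rr
  linarith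

theorem int_rr (hC : 0 < C) (hA : ApG d P C h) (x u y : Site d) :
    Integrable (fun V => rr h V x u y) P ∧ ∫ V, rr h V x u y ∂P ≤ √C := by
  have hm0 : Measurable fun V => Real.log (h V x u) + Real.log (h V u y) - Real.log (h V x y) :=
    ((meas_log hA x u).add (meas_log hA u y)).sub (meas_log hA x y)
  have hm : Measurable fun V => rr h V x u y := measurable_const.max hm0
  have e1 := (memLp_two_iff_integrable_sq (meas_log hA x u).aestronglyMeasurable).2 (hA.sq x u).1
  have e2 := (memLp_two_iff_integrable_sq (meas_log hA u y).aestronglyMeasurable).2 (hA.sq u y).1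
  have e3 := (memLp_two_iff_integrable_sq (meas_log hA x y).aestronglyMeasurable).2 (hA.sq x y).1
  have e4 : MemLp (fun V => Real.log (h V x u) + Real.log (h V u y) - Real.log (h V x y)) 2 P :=
    (e1.add e2).sub e3
  have e5 := (memLp_two_iff_integrable_sq hm0.aestronglyMeasurable).1 e4
  have hi : Integrable (fun V => (rr h V x u y) ^ 2) P := by
    refine e5.mono' (hm.pow_const 2).aestronglyMeasurable ?_
    refine Filter.Eventually.of_forall fun V => ?_
    rw [Real.norm_of_nonneg (sq_nonneg _)]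
    unfold rr
    rcases le_total 0 (Real.log (h V x u) + Real.log (h V u y) - Real.log (h V x y)) with h1 | h1
    · rw [max_eq_right h1]
    · rw [max_eq_left h1, zero_pow two_ne_zero]
      exact sq_nonneg _
  obtain ⟨h1, h2⟩ := int_abs hm (K := √C) (Real.sqrt_pos.2 hC) hi (by
    rw [Real.sq_sqrt hC.le]
    exact hA.tri x u y)
  refine ⟨h1, le_trans (le_of_eq ?_) h2⟩
  congr 1
  funext V
  exact (abs_of_nonneg (rr_nonneg V x u y)).symm

/-- the means converge -/
theorem mn_lim (hC : 0 < C) (hS : ShiftInv P) (hA : ApG d P C h) (x : Site d) :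
    ∃ m : ℝ, Tendsto (fun n : ℕ => mn P h 0 (sm n x) / n) atTop (nhds m) := by
  have hs : Subadditive (fun n : ℕ => mn P h 0 (sm n x) + √C) := by
    intro m n
    have h1 := mn_add hC hS hA (sm m x) (sm n x)
    show mn P h 0 (sm (m + n) x) + √C ≤ mn P h 0 (sm m x) + √C + (mn P h 0 (sm n x) + √C)
    rw [sm_add_left]
    linarith
  have hb : BddBelow (Set.range fun n : ℕ => (mn P h 0 (sm n x) + √C) / n) := by
    refine ⟨0, ?_⟩
    rintro _ ⟨n, rfl⟩
    have h1 := mn_ge hC hA 0 (sm n x)
    exact div_nonneg (by linarith) (Nat.cast_nonneg n)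
  have h0 : Tendsto (fun n : ℕ => √C / (n : ℝ)) atTop (nhds 0) :=
    tendsto_const_div_atTop_nhds_zero_nat _
  refine ⟨hs.lim, ?_⟩
  have h1 := (hs.tendsto_lim hb).sub h0
  rw [sub_zero] at h1
  refine h1.congr fun n => ?_
  rw [← sub_div]
  congr 1
  ring

/-- the iterated triangle inequality -/
theorem iter (V : Cfg d) (m : ℕ) (x : Site d) (k : ℕ) :
    -Real.log (h V 0 (sm (k * m) x)) ≤ |Real.log (h V 0 0)| +
      ∑ i ∈ Finset.range k, -Real.log (h V (sm (i * m) x) (sm ((i + 1) * m) x)) +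
      ∑ i ∈ Finset.range k, rr h V 0 (sm (i * m) x) (sm ((i + 1) * m) x) := by
  induction k with
  | zero =>
    rw [zero_mul, sm_zero_left]
    simp only [Finset.range_zero, Finset.sum_empty, add_zero]
    exact neg_le_abs _
  | succ k ih =>
    rw [Finset.sum_range_succ, Finset.sum_range_succ]
    have := rr_ge (h := h) V 0 (sm (k * m) x) (sm ((k + 1) * m) x)
    linarith

variable {ν : Measure ℝ} [IsProbabilityMeasure ν]

/-- one block -/
theorem blk (hA : ApG d (PP d ν) C h) (m : ℕ) (x : Site d) :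
    ∀ᵐ V ∂(PP d ν), ∀ i : ℕ, -Real.log (h V (sm (i * m) x) (sm ((i + 1) * m) x)) =
      -Real.log (h (tau (i • sm m x) V) 0 (sm m x)) := by
  rw [ae_all_iff]
  intro i
  filter_upwards [hA.stat (i • sm m x)] with V hV
  rw [hV 0 (sm m x), zero_add, nsmul_sm, ← sm_add_left]
  have e : m + i * m = (i + 1) * m := by ring
  rw [e]

/-- the positive part -/
theorem pospart (hC : 0 < C) (hA : ApG d (PP d ν) C h) {m k : ℕ} (hm : 0 < m) (hk : 0 < k)
    (x : Site d) :
    ∫ V, max 0 (-Real.log (h V 0 (sm (k * m) x)) / ((k * m : ℕ) : ℝ) -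
      mn (PP d ν) h 0 (sm m x) / m) ∂(PP d ν) ≤ √C / k + √C / m +
      ∫ V, |(∑ i ∈ Finset.range k, -Real.log (h (tau (i • sm m x) V) 0 (sm m x))) / k -
        mn (PP d ν) h 0 (sm m x)| ∂(PP d ν) := by
  have hS : ShiftInv (PP d ν) := shiftInv_PP ν
  have hm' : (0 : ℝ) < m := by exact_mod_cast hm
  have hk' : (0 : ℝ) < k := by exact_mod_cast hk
  have hm1 : (1 : ℝ) ≤ m := by exact_mod_cast hm
  have i0 := int_log hC hA 0 0
  have iD : ∀ i : ℕ, Integrable (fun V => -Real.log (h (tau (i • sm m x) V) 0 (sm m x)))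
      (PP d ν) := by
    intro i
    exact (hS (i • sm m x)).integrable_comp_of_integrable (int_log hC hA 0 (sm m x)).1.neg
  have iS : Integrable (fun V => |(∑ i ∈ Finset.range k,
      -Real.log (h (tau (i • sm m x) V) 0 (sm m x))) / k - mn (PP d ν) h 0 (sm m x)|)
      (PP d ν) :=
    (((integrable_finsetSum _ fun i _ => iD i).div_const _).sub (integrable_const _)).abs
  have iR : Integrable (fun V => ∑ i ∈ Finset.range k, rr h V 0 (sm (i * m) x)
      (sm ((i + 1) * m) x)) (PP d ν) :=
    integrable_finsetSum _ fun i _ => (int_rr hC hA _ _ _).1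
  have hR : ∫ V, (∑ i ∈ Finset.range k, rr h V 0 (sm (i * m) x) (sm ((i + 1) * m) x)) ∂(PP d ν) ≤
      k * √C := by
    rw [integral_finsetSum _ fun i _ => (int_rr hC hA _ _ _).1]
    refine (Finset.sum_le_sum fun i _ => (int_rr hC hA _ _ _).2).trans (le_of_eq ?_)
    simp
  have hpt : ∀ᵐ V ∂(PP d ν), max 0 (-Real.log (h V 0 (sm (k * m) x)) / ((k * m : ℕ) : ℝ) -
      mn (PP d ν) h 0 (sm m x) / m) ≤ |Real.log (h V 0 0)| / k +
      (∑ i ∈ Finset.range k, rr h V 0 (sm (i * m) x) (sm ((i + 1) * m) x)) / (k * m) +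
      |(∑ i ∈ Finset.range k, -Real.log (h (tau (i • sm m x) V) 0 (sm m x))) / k -
        mn (PP d ν) h 0 (sm m x)| := by
    filter_upwards [blk hA m x] with V hV
    have h1 := iter (h := h) V m x k
    have h2 : ∑ i ∈ Finset.range k, -Real.log (h V (sm (i * m) x) (sm ((i + 1) * m) x)) =
        ∑ i ∈ Finset.range k, -Real.log (h (tau (i • sm m x) V) 0 (sm m x)) :=
      Finset.sum_congr rfl fun i _ => hV i
    rw [h2] at h1
    set S := ∑ i ∈ Finset.range k, -Real.log (h (tau (i • sm m x) V) 0 (sm m x)) with hSd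
    set R := ∑ i ∈ Finset.range k, rr h V 0 (sm (i * m) x) (sm ((i + 1) * m) x) with hRd
    set L := |Real.log (h V 0 0)| with hL
    set M := mn (PP d ν) h 0 (sm m x) with hM
    have hL0 : 0 ≤ L := abs_nonneg _
    have hR0 : 0 ≤ R := Finset.sum_nonneg fun i _ => rr_nonneg V _ _ _
    apply max_le
    · positivity
    · rw [Nat.cast_mul]
      have h3 : -Real.log (h V 0 (sm (k * m) x)) / ((k : ℝ) * m) ≤ (L + S + R) / (k * m) := by
        gcongr
      have h4 : (L + S + R) / (k * m) - M / m = L / (k * m) + R / (k * m) + (S / k - M) / m := by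
        field_simp
        ring
      have h5 : L / (k * m) ≤ L / k := by
        gcongr
        nlinarith
      have h6 : (S / k - M) / m ≤ |S / k - M| := by
        calc (S / k - M) / m ≤ |S / k - M| / m := by
              gcongr
              exact le_abs_self _
          _ ≤ |S / k - M| / 1 := by
              gcongr
          _ = |S / k - M| := div_one _
      linarith
  have iL : Integrable (fun V => |Real.log (h V 0 0)| / (k : ℝ)) (PP d ν) :=
    i0.1.abs.div_const _
  have iR' : Integrable (fun V => (∑ i ∈ Finset.range k, rr h V 0 (sm (i * m) x)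
      (sm ((i + 1) * m) x)) / ((k : ℝ) * m)) (PP d ν) := iR.div_const _
  have iX : Integrable (fun V => max 0 (-Real.log (h V 0 (sm (k * m) x)) / ((k * m : ℕ) : ℝ) -
      mn (PP d ν) h 0 (sm m x) / m)) (PP d ν) := by
    have := ((int_log hC hA 0 (sm (k * m) x)).1.neg.div_const ((k * m : ℕ) : ℝ)).sub
      (integrable_const (mn (PP d ν) h 0 (sm m x) / m))
    refine this.pos_part.congr (Eventually.of_forall fun V => ?_)
    simp only [Pi.sub_apply, Pi.neg_apply]
    exact max_comm _ _
  have hsum : Integrable (fun V => |Real.log (h V 0 0)| / (k : ℝ) +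
      (∑ i ∈ Finset.range k, rr h V 0 (sm (i * m) x) (sm ((i + 1) * m) x)) / ((k : ℝ) * m))
      (PP d ν) := iL.add iR'
  refine (integral_mono_ae iX (hsum.add iS) hpt).trans ?_
  rw [integral_add' hsum iS, integral_add iL iR', integral_div, integral_div]
  have h7 : (∫ V, |Real.log (h V 0 0)| ∂(PP d ν)) / k ≤ √C / k := by
    have h8 : sd (0 : Site d) 0 = 0 := by
      unfold sd
      simp
    have h9 := i0.2
    rw [h8] at h9
    gcongr
    simpa using h9
  have h8 : (∫ V, (∑ i ∈ Finset.range k, rr h V 0 (sm (i * m) x) (sm ((i + 1) * m) x)) ∂(PP d ν)) /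
      (k * m) ≤ √C / m := by
    calc _ ≤ (k * √C) / (k * m) := by gcongr
      _ = √C / m := by
        field_simp
  linarith

/-- the law of large numbers along the multiples of `m` -/
theorem along (hC : 0 < C) (hA : ApG d (PP d ν) C h) {m k : ℕ} (hm : 0 < m) (hk : 0 < k)
    (x : Site d) (μ : ℝ) :
    ∫ V, |-Real.log (h V 0 (sm (k * m) x)) / ((k * m : ℕ) : ℝ) - μ| ∂(PP d ν) ≤
      2 * (√C / k + √C / m +
      ∫ V, |(∑ i ∈ Finset.range k, -Real.log (h (tau (i • sm m x) V) 0 (sm m x))) / k -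
        mn (PP d ν) h 0 (sm m x)| ∂(PP d ν)) +
      (mn (PP d ν) h 0 (sm m x) / m - mn (PP d ν) h 0 (sm (k * m) x) / ((k * m : ℕ) : ℝ)) +
      |mn (PP d ν) h 0 (sm m x) / m - μ| := by
  have hp := pospart hC hA hm hk x
  set c := mn (PP d ν) h 0 (sm m x) / m with hc
  have iX : Integrable (fun V => -Real.log (h V 0 (sm (k * m) x)) / ((k * m : ℕ) : ℝ))
      (PP d ν) := (int_log hC hA 0 (sm (k * m) x)).1.neg.div_const _
  have iXc : Integrable (fun V => -Real.log (h V 0 (sm (k * m) x)) / ((k * m : ℕ) : ℝ) - c)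
      (PP d ν) := iX.sub (integrable_const _)
  have iP : Integrable (fun V => max 0 (-Real.log (h V 0 (sm (k * m) x)) / ((k * m : ℕ) : ℝ) - c))
      (PP d ν) := by
    refine iXc.pos_part.congr (Eventually.of_forall fun V => ?_)
    exact max_comm _ _
  have hpt : ∀ V, |-Real.log (h V 0 (sm (k * m) x)) / ((k * m : ℕ) : ℝ) - μ| ≤
      2 * max 0 (-Real.log (h V 0 (sm (k * m) x)) / ((k * m : ℕ) : ℝ) - c) -
      (-Real.log (h V 0 (sm (k * m) x)) / ((k * m : ℕ) : ℝ) - c) + |c - μ| := by
    intro V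
    set X := -Real.log (h V 0 (sm (k * m) x)) / ((k * m : ℕ) : ℝ)
    have h1 : |X - μ| ≤ |X - c| + |c - μ| := abs_sub_le _ _ _
    have h2 : |X - c| = 2 * max 0 (X - c) - (X - c) := by
      rcases le_total 0 (X - c) with h3 | h3
      · rw [max_eq_right h3, abs_of_nonneg h3]
        ring
      · rw [max_eq_left h3, abs_of_nonpos h3]
        ring
    linarith
  have i2 : Integrable (fun V =>
      2 * max 0 (-Real.log (h V 0 (sm (k * m) x)) / ((k * m : ℕ) : ℝ) - c) -
      (-Real.log (h V 0 (sm (k * m) x)) / ((k * m : ℕ) : ℝ) - c)) (PP d ν) :=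
    (iP.const_mul 2).sub iXc
  refine (integral_mono (iX.sub (integrable_const μ)).abs (i2.add (integrable_const _))
    hpt).trans ?_
  have e1 : ∫ V, (-Real.log (h V 0 (sm (k * m) x)) / ((k * m : ℕ) : ℝ) - c) ∂(PP d ν) =
      mn (PP d ν) h 0 (sm (k * m) x) / ((k * m : ℕ) : ℝ) - c := by
    rw [integral_sub iX (integrable_const _), integral_div, integral_const]
    simp [mn]
  rw [integral_add' i2 (integrable_const _), integral_sub (iP.const_mul 2) iXc,
    integral_const_mul, e1, integral_const]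
  simp only [probReal_univ, one_smul]
  linarith

theorem sd_block (k m r : ℕ) (x : Site d) :
    sd (sm (k * m) x) (sm (k * m + r) x) ≤ r * sd 0 x := by
  have e : sd (sm (k * m) x) (sm (k * m + r) x) = sd 0 (sm r x) := by
    rw [sm_add_left]
    unfold sd
    simp
  rw [e]
  exact sd_sm r x

/-- the remaining `r` steps -/
theorem rest (hC : 0 < C) (hA : ApG d (PP d ν) C h) {k m r : ℕ} (hr : r ≤ m) (x : Site d) :
    ∫ V, |-Real.log (h V 0 (sm (k * m + r) x)) - -Real.log (h V 0 (sm (k * m) x))| ∂(PP d ν) ≤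
      2 * (√C * ((m * sd 0 x : ℝ) + 1)) + 2 * √C := by
  set a := sm (k * m) x with ha
  set b := sm (k * m + r) x with hb
  have iab := int_log hC hA a b
  have iba := int_log hC hA b a
  have r1 := int_rr hC hA 0 a b
  have r2 := int_rr hC hA 0 b a
  have hs1 : (sd a b : ℝ) ≤ m * sd 0 x := by
    have h1 := sd_block k m r x
    have h2 : r * sd 0 x ≤ m * sd 0 x := Nat.mul_le_mul_right _ hr
    exact_mod_cast h1.trans h2
  have hs2 : (sd b a : ℝ) ≤ m * sd 0 x := by
    rw [sd_comm]
    exact hs1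
  have hpt : ∀ V, |-Real.log (h V 0 b) - -Real.log (h V 0 a)| ≤
      (|Real.log (h V a b)| + |Real.log (h V b a)|) + (rr h V 0 a b + rr h V 0 b a) := by
    intro V
    have h1 := rr_ge (h := h) V 0 a b
    have h2 := rr_ge (h := h) V 0 b a
    have h3 := neg_le_abs (Real.log (h V a b))
    have h4 := neg_le_abs (Real.log (h V b a))
    have h5 := abs_nonneg (Real.log (h V a b))
    have h6 := abs_nonneg (Real.log (h V b a))
    have h7 := rr_nonneg (h := h) V 0 a b
    have h8 := rr_nonneg (h := h) V 0 b a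
    rw [abs_le]
    constructor <;> linarith
  have j1 : Integrable (fun V => |Real.log (h V a b)| + |Real.log (h V b a)|) (PP d ν) :=
    iab.1.abs.add iba.1.abs
  have j2 : Integrable (fun V => rr h V 0 a b + rr h V 0 b a) (PP d ν) := r1.1.add r2.1
  have j0 : Integrable (fun V => |-Real.log (h V 0 b) - -Real.log (h V 0 a)|) (PP d ν) :=
    ((int_log hC hA 0 b).1.neg.sub (int_log hC hA 0 a).1.neg).abs
  refine (integral_mono j0 (j1.add j2) hpt).trans ?_
  rw [integral_add' j1 j2, integral_add iab.1.abs iba.1.abs, integral_add r1.1 r2.1]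
  have k1 : ∫ V, |Real.log (h V a b)| ∂(PP d ν) ≤ √C * ((m * sd 0 x : ℝ) + 1) :=
    iab.2.trans (by gcongr)
  have k2 : ∫ V, |Real.log (h V b a)| ∂(PP d ν) ≤ √C * ((m * sd 0 x : ℝ) + 1) :=
    iba.2.trans (by gcongr)
  have k3 := r1.2
  have k4 := r2.2
  linarith

/-- from the multiples of `m` to all `n` -/
theorem gen (hC : 0 < C) (hA : ApG d (PP d ν) C h) {m n : ℕ} (hm : 0 < m) (hn : m ≤ n)
    (x : Site d) (μ : ℝ) :
    ∫ V, |-Real.log (h V 0 (sm n x)) / n - μ| ∂(PP d ν) ≤
      ∫ V, |-Real.log (h V 0 (sm (n / m * m) x)) / ((n / m * m : ℕ) : ℝ) - μ| ∂(PP d ν) +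
      (2 * (√C * ((m * sd 0 x : ℝ) + 1)) + 2 * √C + m * |μ|) / n := by
  set k := n / m with hk
  set r := n % m with hr
  have hkm : k * m + r = n := by
    rw [hk, hr, mul_comm]
    exact Nat.div_add_mod n m
  have hk0 : 0 < k := Nat.div_pos hn hm
  have hr0 : r ≤ m := (Nat.mod_lt n hm).le
  have hn0 : (0 : ℝ) < n := by
    have : 0 < n := by omega
    exact_mod_cast this
  have hkm0 : (0 : ℝ) < ((k * m : ℕ) : ℝ) := by
    have : 0 < k * m := Nat.mul_pos hk0 hm
    exact_mod_cast this
  have hkn : ((k * m : ℕ) : ℝ) ≤ n := by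
    have : k * m ≤ n := by omega
    exact_mod_cast this
  have hnk : (n : ℝ) - ((k * m : ℕ) : ℝ) ≤ m := by
    have : n ≤ k * m + m := by omega
    have h2 : (n : ℝ) ≤ ((k * m + m : ℕ) : ℝ) := by exact_mod_cast this
    rw [Nat.cast_add] at h2
    linarith
  have hres := rest hC hA (k := k) (m := m) (r := r) hr0 x
  rw [hkm] at hres
  have hpt : ∀ V, |-Real.log (h V 0 (sm n x)) / n - μ| ≤
      |-Real.log (h V 0 (sm (k * m) x)) / ((k * m : ℕ) : ℝ) - μ| +
      (|-Real.log (h V 0 (sm n x)) - -Real.log (h V 0 (sm (k * m) x))| / n + m * |μ| / n) := by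
    intro V
    set X := -Real.log (h V 0 (sm n x))
    set Y := -Real.log (h V 0 (sm (k * m) x))
    set K := ((k * m : ℕ) : ℝ)
    have e : X / n - μ = (X - Y) / n + (K / n) * (Y / K - μ) + -(((n : ℝ) - K) * μ / n) := by
      field_simp
      ring
    have h1 : |(X - Y) / n| = |X - Y| / n := by
      rw [abs_div, abs_of_pos hn0]
    have h2 : |(K / n) * (Y / K - μ)| ≤ |Y / K - μ| := by
      rw [abs_mul, abs_of_pos (by positivity)]
      have : K / n ≤ 1 := by
        rw [div_le_one hn0]
        exact hkn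
      calc K / n * |Y / K - μ| ≤ 1 * |Y / K - μ| := by gcongr
        _ = _ := one_mul _
    have h3 : |-(((n : ℝ) - K) * μ / n)| ≤ m * |μ| / n := by
      rw [abs_neg, abs_div, abs_mul, abs_of_pos hn0, abs_of_nonneg (by linarith)]
      gcongr
    rw [e]
    refine (abs_add_three _ _ _).trans ?_
    linarith
  have iD : Integrable (fun V => |-Real.log (h V 0 (sm n x)) -
      -Real.log (h V 0 (sm (k * m) x))|) (PP d ν) :=
    ((int_log hC hA 0 _).1.neg.sub (int_log hC hA 0 _).1.neg).abs
  have iE : Integrable (fun V => |-Real.log (h V 0 (sm n x)) -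
      -Real.log (h V 0 (sm (k * m) x))| / (n : ℝ) + m * |μ| / n) (PP d ν) :=
    (iD.div_const _).add (integrable_const _)
  have iY : Integrable (fun V => |-Real.log (h V 0 (sm (k * m) x)) / ((k * m : ℕ) : ℝ) - μ|)
      (PP d ν) :=
    (((int_log hC hA 0 _).1.neg.div_const _).sub (integrable_const _)).abs
  have iX : Integrable (fun V => |-Real.log (h V 0 (sm n x)) / (n : ℝ) - μ|) (PP d ν) :=
    (((int_log hC hA 0 _).1.neg.div_const _).sub (integrable_const _)).abs
  refine (integral_mono iX (iY.add iE) hpt).trans ?_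
  rw [integral_add' iY iE, integral_add (iD.div_const _) (integrable_const _), integral_div,
    integral_const]
  simp only [probReal_univ, one_smul]
  rw [← add_div]
  gcongr

/-- LLN, from ERM -/
theorem lln_of (erm : ErmStmt) : LlnStmt := by
  intro d ν _ C h hC hA
  have hS : ShiftInv (PP d ν) := shiftInv_PP ν
  have key : ∀ x : Site d, ∃ μ : ℝ, Tendsto (fun n : ℕ =>
      ∫ V, |-Real.log (h V 0 (sm n x)) / n - μ| ∂(PP d ν)) atTop (nhds 0) := by
    intro x
    by_cases hx : x = 0
    · refine ⟨0, ?_⟩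
      have h1 : Tendsto (fun n : ℕ => (∫ V, |Real.log (h V 0 0)| ∂(PP d ν)) / (n : ℝ)) atTop
          (nhds 0) := tendsto_const_div_atTop_nhds_zero_nat _
      refine h1.congr fun n => ?_
      rw [← integral_div]
      congr 1
      funext V
      rw [hx, sm_zero_right, sub_zero, abs_div, abs_neg, Nat.abs_cast]
    · obtain ⟨μ, hμ⟩ := mn_lim hC hS hA x
      refine ⟨μ, ?_⟩
      rw [Metric.tendsto_atTop]
      intro ε hε
      -- choose m
      have h0 : Tendsto (fun n : ℕ => √C / (n : ℝ)) atTop (nhds 0) :=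
        tendsto_const_div_atTop_nhds_zero_nat _
      have hm1 : ∀ᶠ m : ℕ in atTop, |√C / (m : ℝ)| < ε / 16 := by
        have := (Metric.tendsto_nhds.1 h0) (ε / 16) (by positivity)
        simpa only [Real.dist_eq, sub_zero] using this
      have hm2 : ∀ᶠ m : ℕ in atTop, |mn (PP d ν) h 0 (sm m x) / m - μ| < ε / 16 := by
        have := (Metric.tendsto_nhds.1 hμ) (ε / 16) (by positivity)
        simpa only [Real.dist_eq, sub_zero] using this
      obtain ⟨m, hma, hmb, hm⟩ := (hm1.and (hm2.and (eventually_ge_atTop 1))).exists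
      have hm0 : 0 < m := hm
      have hE := erm d ν (fun V => -Real.log (h V 0 (sm m x))) (meas_log hA 0 (sm m x)).neg
        (int_log hC hA 0 (sm m x)).1.neg (sm m x) (sm_ne_zero hm0 hx)
      -- choose k large
      have hq : Tendsto (fun n : ℕ => n / m) atTop atTop := Nat.tendsto_div_const_atTop hm0.ne'
      have hk1 : ∀ᶠ k : ℕ in atTop, |∫ V, |(∑ i ∈ Finset.range k,
          -Real.log (h (tau (i • sm m x) V) 0 (sm m x))) / k -
          mn (PP d ν) h 0 (sm m x)| ∂(PP d ν)| < ε / 16 := by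
        have := (Metric.tendsto_nhds.1 hE) (ε / 16) (by positivity)
        simpa only [Real.dist_eq, sub_zero, mn] using this
      have hk2 : ∀ᶠ k : ℕ in atTop, |mn (PP d ν) h 0 (sm (k * m) x) / ((k * m : ℕ) : ℝ) - μ| <
          ε / 16 := by
        have h1 : Tendsto (fun k : ℕ => k * m) atTop atTop :=
          tendsto_id.atTop_mul_const' hm0
        exact h1.eventually hm2
      have hn1 : ∀ᶠ n : ℕ in atTop,
          |(2 * (√C * ((m * sd 0 x : ℝ) + 1)) + 2 * √C + m * |μ|) / (n : ℝ)| < ε / 16 := by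
        have h1 : Tendsto (fun n : ℕ =>
            (2 * (√C * ((m * sd 0 x : ℝ) + 1)) + 2 * √C + m * |μ|) / (n : ℝ)) atTop (nhds 0) :=
          tendsto_const_div_atTop_nhds_zero_nat _
        have := (Metric.tendsto_nhds.1 h1) (ε / 16) (by positivity)
        simpa only [Real.dist_eq, sub_zero] using this
      have hall := (hq.eventually (hm1.and (hk1.and (hk2.and (eventually_ge_atTop 1))))).and
        (hn1.and (eventually_ge_atTop m))
      obtain ⟨N, hN⟩ := eventually_atTop.1 hall
      refine ⟨N, fun n hn => ?_⟩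
      obtain ⟨⟨ha, hb, hc, hd⟩, he, hf⟩ := hN n hn
      have hg := gen hC hA hm0 hf x μ
      have hal := along hC hA hm0 (k := n / m) hd x μ
      rw [Real.dist_eq, sub_zero, abs_of_nonneg (integral_nonneg fun V => abs_nonneg _)]
      rw [abs_lt] at ha hb hc he hma
      have hmb' := abs_lt.1 hmb
      obtain ⟨ha1, ha2⟩ := ha
      obtain ⟨hb1, hb2⟩ := hb
      obtain ⟨hc1, hc2⟩ := hc
      obtain ⟨he1, he2⟩ := he
      obtain ⟨hm1', hm2'⟩ := hma
      obtain ⟨hm3, hm4⟩ := hmb'
      linarith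
  choose μ hμ using key
  exact ⟨μ, hμ⟩

/-- LLN -/
theorem lln : LlnStmt := lln_of Pool.Agent.LE.H77B.erm

end Pool.Agent.LE.H30
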